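import Pool.Agent.H98.RFT.Targets3

/-!
# No bad cells for the trivial norm (row BASE of rft_modules)
-/

set_option autoImplicit false

open MeasureTheory ProbabilityTheory

namespace Pool.Agent.H67.RFT

open Pool.Agent.H98.RFC Pool.Agent.H98.RFZ Pool.Agent.H98.RFT

theorem box_neg {R : ℕ} {y : Site} (h : -y ∈ box R) : y ∈ box R := by
  unfold box at h ⊢
  rw [Finset.mem_product, Finset.mem_Icc, Finset.mem_Icc] at h ⊢
  obtain ⟨⟨h1, h2⟩, h3, h4⟩ := h
  have e1 : (-y).1 = -y.1 := rfl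
  have e2 : (-y).2 = -y.2 := rfl
  rw [e1] at h1 h2
  rw [e2] at h3 h4
  omega

theorem pf_BASE (hNQ : B_NQ) : T_BASE := by
  intro R hR D ω hω p hp v z
  have hR0 : (0 : ℝ) < (R : ℝ) := by exact_mod_cast hR
  set a : ℝ := 1 / (2 * (R : ℝ) ^ 2) with ha
  have ha0 : 0 < a := by positivity
  have hs0 : 0 < Real.sqrt a := Real.sqrt_pos.2 ha0
  have hsq : Real.sqrt a ^ 2 = a := Real.sq_sqrt ha0.le
  obtain ⟨⟨hsub, -, -⟩, heq, -⟩ := hNQ p a a (Real.sqrt a) (Real.sqrt a) hp hs0 hs0 hsq.le hsq.ge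
    hsq.le hsq.ge
  rintro ⟨k, x, ⟨hD, hstep⟩, -, -, -, hlt⟩
  have hone : ∀ y : Site, y ∈ box R → Nq p a a y ≤ 1 := by
    intro y hy
    rw [heq]
    unfold box at hy
    rw [Finset.mem_product, Finset.mem_Icc, Finset.mem_Icc] at hy
    obtain ⟨⟨h1, h2⟩, h3, h4⟩ := hy
    have h5 : y.1 ^ 2 ≤ (R : ℤ) ^ 2 := by nlinarith
    have h6 : y.2 ^ 2 ≤ (R : ℤ) ^ 2 := by nlinarith
    have h7 : (nsq y : ℝ) ≤ 2 * (R : ℝ) ^ 2 := by
      have h8 : nsq y ≤ 2 * (R : ℤ) ^ 2 := by
        unfold nsq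
        linarith
      exact_mod_cast h8
    unfold nrm
    rw [← Real.sqrt_mul ha0.le]
    rw [Real.sqrt_le_one]
    rw [ha, one_div, inv_mul_le_iff₀ (by positivity), mul_one]
    exact h7
  have hN0 : Nq p a a 0 = 0 := by
    rw [heq]
    have : nrm 0 = 0 := by
      unfold nrm nsq
      simp
    rw [this, mul_zero]
  have key : ∀ j : ℕ, j ≤ k → Nq p a a (x j - x 0) ≤ j := by
    intro j
    induction j with
    | zero =>
      intro _
      rw [sub_self, hN0]
      simp
    | succ j ih =>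
      intro hj
      have h1 := ih (by omega)
      have h2 := hstep j (by omega)
      have h3 : x (j + 1) - x j ∈ box R := by
        rcases h2 with h2 | h2
        · exact hω _ h2
        · have h7 := hω _ h2
          apply box_neg
          rw [neg_sub]
          exact h7
      have h4 := hone _ h3
      have h5 := hsub (x j - x 0) (x (j + 1) - x j)
      have h6 : x j - x 0 + (x (j + 1) - x j) = x (j + 1) - x 0 := by abel
      rw [h6] at h5
      push_cast
      linarith
  have := key k le_rfl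
  linarith

end Pool.Agent.H67.RFT
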