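import Pool.Agent.H98.RFT.Basic
import Pool.Agent.H1.RFZ.RCT
import Pool.Agent.H67.RFZ.LB

/-!
# Row TLB1 of rft_modules: lower bound for the tension at positive temperature (helper67)
-/

set_option autoImplicit false

open MeasureTheory ProbabilityTheory

namespace Pool.Agent.H67.RFT

open Pool.Agent.H98.RFC Pool.Agent.H98.RFZ Pool.Agent.H98.RFT Pool.Agent.H67.RFZ

theorem shift_eq (ε s : ℝ) (V : Finset Site) (η : Site → ℝ) :
    (fun x => ε * shf V s η x) = shf V (ε * s) (fun x => ε * η x) := by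
  funext x
  unfold shf
  split_ifs <;> ring

theorem sqrt2_le : Real.sqrt 2 ≤ 3 / 2 := by
  rw [Real.sqrt_le_left (by norm_num)]
  norm_num

/-- The hull of the rectangle. -/
theorem hull_rect (R : ℕ) (p : Site) (K w : ℝ) (hp : p ≠ 0) (hK : 1 ≤ K)
    (hw : (20 * R + 20 : ℝ) ≤ w) : hull R (rect p K w) ⊆ rect p K (4 * w) := by
  have hn := Pool.Agent.H67.RFZ.nrm_pos hp
  have hR : (0 : ℝ) ≤ R := Nat.cast_nonneg R
  have hw0 : 0 < w := by linarith
  intro y hy
  rw [hull, Finset.mem_biUnion] at hy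
  obtain ⟨x, hx, hy⟩ := hy
  have h1 := (Pool.Agent.H1.RFZ.mem_rect p K w hp hK hw0.le x).1 hx
  rw [Pool.Agent.H1.RFZ.mem_rect p K (4 * w) hp hK (by linarith)]
  unfold bx at hy
  rw [Finset.mem_product, Finset.mem_Icc, Finset.mem_Icc] at hy
  obtain ⟨⟨h2, h3⟩, h4, h5⟩ := hy
  set z : Site := y - x with hz
  have hyz : y = x + z := by rw [hz]; abel
  have hz1 : |(z.1 : ℝ)| ≤ R := by
    have e : z.1 = y.1 - x.1 := rfl
    have : |z.1| ≤ (R : ℤ) := abs_le.2 ⟨by omega, by omega⟩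
    exact_mod_cast this
  have hz2 : |(z.2 : ℝ)| ≤ R := by
    have e : z.2 = y.2 - x.2 := rfl
    have : |z.2| ≤ (R : ℤ) := abs_le.2 ⟨by omega, by omega⟩
    exact_mod_cast this
  have hp1 : |(p.1 : ℝ)| ≤ nrm p := by
    unfold nrm nsq
    refine Real.abs_le_sqrt ?_
    push_cast
    nlinarith [sq_nonneg (p.2 : ℝ)]
  have hp2 : |(p.2 : ℝ)| ≤ nrm p := by
    unfold nrm nsq
    refine Real.abs_le_sqrt ?_
    push_cast
    nlinarith [sq_nonneg (p.1 : ℝ)]
  have hf : |(fdet p z : ℝ)| ≤ 2 * R * nrm p := by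
    unfold fdet
    push_cast
    calc |(p.1 : ℝ) * z.2 - p.2 * z.1| ≤ |(p.1 : ℝ) * z.2| + |(p.2 : ℝ) * z.1| := abs_sub _ _
      _ = |(p.1 : ℝ)| * |(z.2 : ℝ)| + |(p.2 : ℝ)| * |(z.1 : ℝ)| := by rw [abs_mul, abs_mul]
      _ ≤ nrm p * R + nrm p * R := by gcongr
      _ = 2 * R * nrm p := by ring
  have hg : |(gdot p z : ℝ)| ≤ 2 * R * nrm p := by
    unfold gdot
    push_cast
    calc |(p.1 : ℝ) * z.1 + p.2 * z.2| ≤ |(p.1 : ℝ) * z.1| + |(p.2 : ℝ) * z.2| := abs_add_le _ _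
      _ = |(p.1 : ℝ)| * |(z.1 : ℝ)| + |(p.2 : ℝ)| * |(z.2 : ℝ)| := by rw [abs_mul, abs_mul]
      _ ≤ nrm p * R + nrm p * R := by gcongr
      _ = 2 * R * nrm p := by ring
  have hRw : 2 * R * nrm p ≤ w * nrm p := by
    have : (2 : ℝ) * R ≤ w := by linarith
    exact mul_le_mul_of_nonneg_right this hn.le
  have hKw : w * nrm p ≤ K * w * nrm p := by
    have : 0 < w * nrm p := by positivity
    nlinarith
  have hwn : 0 < w * nrm p := by positivity
  rw [hyz]
  constructor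
  · rw [fdet_add]
    push_cast
    calc |(fdet p x : ℝ) + fdet p z| ≤ |(fdet p x : ℝ)| + |(fdet p z : ℝ)| := abs_add_le _ _
      _ ≤ w * nrm p + 2 * R * nrm p := add_le_add h1.1 hf
      _ ≤ 4 * w * nrm p := by linarith
  · rw [gdot_add]
    push_cast
    calc |(gdot p x : ℝ) + gdot p z| ≤ |(gdot p x : ℝ)| + |(gdot p z : ℝ)| := abs_add_le _ _
      _ ≤ K * w * nrm p + 2 * R * nrm p := add_le_add h1.2 hg
      _ ≤ K * (4 * w) * nrm p := by nlinarith

theorem pf_TLB1 (hAP : D_AP) (hGA : Z_GA) (hCNT : D_CNT) (hTEN : D_TEN) (hAREA : P_AREA)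
    (hLB : P_LBT) (hINF : D_INF) (hCUT : D_CUT) : P_TLBT := by
  classical
  intro R J hJ T ε hT hε p K w hp hK hw
  have hR : (0 : ℝ) ≤ R := Nat.cast_nonneg R
  set V := rect p K w with hV
  set Λ := rect p K (4 * w) with hΛ
  have hn := Pool.Agent.H67.RFZ.nrm_pos hp
  have hw0 : 0 < w := by linarith
  obtain ⟨hcard, _⟩ := hAREA p K w hp hK (by linarith)
  obtain ⟨_, hmonR, _, _⟩ := Pool.Agent.H1.RFZ.pf_RCT p K w hp hK hw0.le
  have hVΛ : V ⊆ Λ := hmonR (4 * w) (by linarith)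
  have hhull : hull R V ⊆ Λ := hull_rect R p K w hp hK hw
  obtain ⟨_, hten0, _, htenm⟩ := hTEN R J hJ T hT V Λ hVΛ
  obtain ⟨hI1, _, _⟩ := hINF R J hJ 0 T hT
  have hinf : ∀ (h : Site → ℝ), ∀ x ∈ V, 0 ≤ inf1 R J h T Λ x ∧ inf1 R J h T Λ x ≤ 1 :=
    fun h x hx => ((hINF R J hJ h T hT).1 Λ x (hVΛ hx)).2
  have hvpos : (0 : ℝ) < (V.card : ℝ) := lt_of_lt_of_le (by positivity) hcard
  set a : ℝ := 1 / Real.sqrt (V.card : ℝ) with ha
  have hsv : 0 < Real.sqrt (V.card : ℝ) := Real.sqrt_pos.2 hvpos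
  have ha0 : 0 < a := by positivity
  have ha2 : a ^ 2 * (V.card : ℝ) = 1 := by
    rw [ha, div_pow, Real.sq_sqrt hvpos.le]
    field_simp
  set f : (Site → ℝ) → ℝ := fun η => ∑ x ∈ V, inf1 R J (fun z => ε * η z) T Λ x with hf
  have hscale : Measurable fun η : Site → ℝ => fun z => ε * η z :=
    measurable_pi_lambda _ fun x => measurable_const.mul (measurable_pi_apply x)
  have hfm : Measurable f := by
    have hD : Measurable (fun h : Site → ℝ => ∑ x ∈ V, inf1 R J h T Λ x) :=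
      (continuous_finsetSum V fun x _ => (hCNT R J T hT Λ).2.2 x).measurable
    exact hD.comp hscale
  have hf0 : ∀ η, 0 ≤ f η := fun η => Finset.sum_nonneg fun x hx => (hinf _ x hx).1
  have hfb : ∃ C, ∀ η, f η ≤ C := ⟨∑ _x ∈ V, (1 : ℝ), fun η =>
    Finset.sum_le_sum fun x hx => (hinf _ x hx).2⟩
  have hGA1 := hGA V a ha0 f hfm hf0 hfb
  rw [ha2] at hGA1
  have hLB1 := hLB R J hJ T ε hT p K w hp hK hw0.le
  have hinner : ∀ η : Site → ℝ, ∫ s in Set.Icc (-a) a, f (shf V s η) ≤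
      (1 / (2 * ε)) * tenT R J (fun x => ε * η x) T V Λ := by
    intro η
    set h : Site → ℝ := fun x => ε * η x with hh
    have h1 : ∀ s : ℝ, f (shf V s η) = ∑ x ∈ V, inf1 R J (shf V (ε * s) h) T Λ x := by
      intro s
      show ∑ x ∈ V, inf1 R J (fun x => ε * shf V s η x) T Λ x = _
      rw [shift_eq]
    have h2 := hAP R J hJ h T hT V Λ hhull hVΛ (-(ε * a)) (ε * a)
      (by nlinarith [mul_pos hε ha0])
    simp_rw [h1]
    rw [integral_Icc_eq_integral_Ioc, ← intervalIntegral.integral_of_le (by linarith)]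
    rw [integral_Icc_eq_integral_Ioc, ← intervalIntegral.integral_of_le
      (by nlinarith [mul_pos hε ha0])] at h2
    have h3 := intervalIntegral.integral_comp_mul_left (a := -a) (b := a)
      (fun t : ℝ => ∑ x ∈ V, inf1 R J (shf V t h) T Λ x) hε.ne'
    rw [h3, smul_eq_mul, mul_neg]
    rw [div_mul_eq_mul_div, one_mul, le_div_iff₀ (by positivity)]
    calc ε⁻¹ * (∫ t in -(ε * a)..ε * a, ∑ x ∈ V, inf1 R J (shf V t h) T Λ x) * (2 * ε)
        = 2 * ∫ t in -(ε * a)..ε * a, ∑ x ∈ V, inf1 R J (shf V t h) T Λ x := by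
          field_simp
      _ ≤ tenT R J h T V Λ := h2
  have htenm2 : Measurable fun η : Site → ℝ => tenT R J (fun x => ε * η x) T V Λ :=
    htenm.comp hscale
  have htenI : Integrable (fun η : Site → ℝ => tenT R J (fun x => ε * η x) T V Λ) gam := by
    refine Integrable.of_bound htenm2.aestronglyMeasurable
      (4 * ∑ a ∈ V, ∑ b ∈ hull R V \ V, J (a - b))
      (Filter.Eventually.of_forall fun η => ?_)
    rw [Real.norm_eq_abs, abs_of_nonneg (hten0 _)]
    refine (hCUT R J hJ _ T hT V V Λ (Finset.Subset.refl V) hVΛ).trans ?_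
    refine mul_le_mul_of_nonneg_left ?_ (by norm_num)
    refine Finset.sum_le_sum fun a _ => Finset.sum_le_sum fun b _ => ?_
    calc J (a - b) * QP R J (fun x => ε * η x) T (Λ \ V) (Cv V a)
        ≤ J (a - b) * 1 := by
          refine mul_le_mul_of_nonneg_left ?_ (hJ.nonneg _)
          exact QP_le_one hJ _ hT _ _
      _ = J (a - b) := mul_one _
  have hint : ∫ η, (∫ s in Set.Icc (-a) a, f (shf V s η)) ∂gam ≤
      (1 / (2 * ε)) * ∫ η, tenT R J (fun x => ε * η x) T V Λ ∂gam := by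
    rw [← integral_const_mul]
    refine integral_mono_of_nonneg (Filter.Eventually.of_forall fun η => ?_)
      (htenI.const_mul _) (Filter.Eventually.of_forall hinner)
    exact integral_nonneg fun s => hf0 _
  set X : ℝ := ∫ η, tenT R J (fun x => ε * η x) T V Λ ∂gam with hX
  have hX0 : 0 ≤ X := integral_nonneg fun η => hten0 _
  have hexp : Real.exp (1 / 2) ≤ 2 := by
    have h1 : Real.exp (1 / 2) ^ 2 ≤ 2 ^ 2 := by
      rw [← Real.exp_nat_mul]
      have h2 : ((2 : ℕ) : ℝ) * (1 / 2) = 1 := by norm_num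
      rw [h2]
      have := Real.exp_one_lt_d9
      linarith
    exact (sq_le_sq₀ (Real.exp_pos _).le (by norm_num)).1 h1
  have hchain : (V.card : ℝ) * mKT R J T ε p K (5 * w) ≤
      2 * (1 / (2 * a)) * ((1 / (2 * ε)) * X) := by
    refine hLB1.trans (hGA1.trans ?_)
    refine mul_le_mul ?_ hint ?_ (by positivity)
    · exact mul_le_mul_of_nonneg_right hexp (by positivity)
    · exact integral_nonneg fun η => integral_nonneg fun s => hf0 _
  have hm0 : 0 ≤ mKT R J T ε p K (5 * w) := by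
    unfold mKT
    refine integral_nonneg fun η => ?_
    have h0 : (0 : Site) ∈ rect p K (5 * w) := by
      rw [Pool.Agent.H1.RFZ.mem_rect p K (5 * w) hp hK (by linarith)]
      have e1 : fdet p 0 = 0 := by simp [fdet]
      have e2 : gdot p 0 = 0 := by simp [gdot]
      rw [e1, e2]
      constructor <;> simp <;> positivity
    exact ((hINF R J hJ _ T hT).1 _ _ h0).2.1
  have hsq : Real.sqrt K * w ≤ Real.sqrt (V.card : ℝ) := by
    have h1 : Real.sqrt K * w = Real.sqrt (K * w ^ 2) := by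
      rw [Real.sqrt_mul (by linarith), Real.sqrt_sq hw0.le]
    rw [h1]
    exact Real.sqrt_le_sqrt hcard
  have h5 : 2 * (1 / (2 * a)) * ((1 / (2 * ε)) * X) = Real.sqrt (V.card : ℝ) * X / (2 * ε) := by
    rw [ha]
    field_simp
  rw [h5, le_div_iff₀ (by positivity)] at hchain
  have h6 : (V.card : ℝ) = Real.sqrt (V.card : ℝ) * Real.sqrt (V.card : ℝ) :=
    (Real.mul_self_sqrt hvpos.le).symm
  have h7 : Real.sqrt (V.card : ℝ) * (2 * ε * (Real.sqrt (V.card : ℝ) *
      mKT R J T ε p K (5 * w))) ≤ Real.sqrt (V.card : ℝ) * X := by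
    calc _ = (Real.sqrt (V.card : ℝ) * Real.sqrt (V.card : ℝ)) * mKT R J T ε p K (5 * w) *
          (2 * ε) := by ring
      _ = (V.card : ℝ) * mKT R J T ε p K (5 * w) * (2 * ε) := by rw [← h6]
      _ ≤ _ := hchain
  have h8 := le_of_mul_le_mul_left h7 hsv
  calc 2 * ε * Real.sqrt K * w * mKT R J T ε p K (5 * w)
      = 2 * ε * ((Real.sqrt K * w) * mKT R J T ε p K (5 * w)) := by ring
    _ ≤ 2 * ε * (Real.sqrt (V.card : ℝ) * mKT R J T ε p K (5 * w)) := by gcongr
    _ ≤ X := h8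

end Pool.Agent.H67.RFT
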