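import Pool.Agent.H98.RFT.Basic
import Pool.Agent.H79.RFC.REP
import Pool.Agent.H7.RFT.ESV
import Pool.Agent.H19.RFC.PS

/-!
# Row TQ of rft_modules: the ratio of partition functions is a probability (helper67)
-/

set_option autoImplicit false

noncomputable section

open MeasureTheory ProbabilityTheory Filter Topology

namespace Pool.Agent.H67.RFT

open Pool.Agent.H98.RFC Pool.Agent.H98.RFZ Pool.Agent.H98.RFT Pool.Agent.H79.RFC

/-- The energy difference depends only on the configuration in `V`. -/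
theorem delta_eq (R : ℕ) (J h : Site → ℝ) (V Λ : Finset Site) (hV : V ⊆ Λ)
    (hh : Pool.Agent.H98.RFC.hull R V ⊆ Λ) (B B' : Set Site)
    (hB : ∀ x ∈ V, (x ∈ B ↔ x ∈ B')) :
    en R J h Λ B - en R J h (Λ \ V) B = en R J h Λ B' - en R J h (Λ \ V) B' := by
  classical
  have hW : Λ \ V ⊆ Λ := Finset.sdiff_subset
  have hsg : ∀ x ∈ V, sg B x = sg B' x := fun x hx => sg_congr (hB x hx)
  have e1 : ∀ B : Set Site, ∑ p ∈ prs R Λ, J (p.1 - p.2) * sg B p.1 * sg B p.2 =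
      ∑ p ∈ prs R Λ \ prs R (Λ \ V), J (p.1 - p.2) * sg B p.1 * sg B p.2 +
      ∑ p ∈ prs R (Λ \ V), J (p.1 - p.2) * sg B p.1 * sg B p.2 :=
    fun B => (Finset.sum_sdiff (Pool.Agent.H19.RFC.prs_mono hW)).symm
  have e2 : ∀ B : Set Site, ∑ x ∈ Λ, h x * sg B x =
      ∑ x ∈ Λ \ (Λ \ V), h x * sg B x + ∑ x ∈ Λ \ V, h x * sg B x :=
    fun B => (Finset.sum_sdiff hW).symm
  have hhull : ∀ a b : Site, a ∈ V → b - a ∈ Pool.Agent.H98.RFC.box R → b ∈ Λ := by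
    intro a b ha hb
    refine hh (Finset.mem_biUnion.2 ⟨a, ha, ?_⟩)
    rw [Pool.Agent.H19.RFC.mem_box] at hb
    rw [Pool.Agent.H19.RFC.mem_bx]
    simp only [Prod.fst_sub, Prod.snd_sub] at hb
    omega
  have e3 : ∑ p ∈ prs R Λ \ prs R (Λ \ V), J (p.1 - p.2) * sg B p.1 * sg B p.2 =
      ∑ p ∈ prs R Λ \ prs R (Λ \ V), J (p.1 - p.2) * sg B' p.1 * sg B' p.2 := by
    apply Finset.sum_congr rfl
    intro p hp
    rw [Finset.mem_sdiff] at hp
    have hp1 := (Finset.mem_filter.1 hp.1).2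
    have hb : p.2 - p.1 ∈ Pool.Agent.H98.RFC.box R := hp1.2
    have hb' : p.1 - p.2 ∈ Pool.Agent.H98.RFC.box R := by
      rw [Pool.Agent.H19.RFC.mem_box] at hb ⊢
      simp only [Prod.fst_sub, Prod.snd_sub] at hb ⊢
      omega
    have h1 : p.1 ∉ Λ \ V := fun h1 => hp.2 (Pool.Agent.H19.RFC.mem_prs_of hb (Or.inl h1))
    have h2 : p.2 ∉ Λ \ V := fun h1 => hp.2 (Pool.Agent.H19.RFC.mem_prs_of hb (Or.inr h1))
    rw [Finset.mem_sdiff] at h1 h2
    push Not at h1 h2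
    have h3 : p.1 ∈ V ∧ p.2 ∈ V := by
      rcases hp1.1 with h | h
      · have h4 := h1 h
        exact ⟨h4, h2 (hhull p.1 p.2 h4 hb)⟩
      · have h4 := h2 h
        exact ⟨h1 (hhull p.2 p.1 h4 hb'), h4⟩
    rw [hsg _ h3.1, hsg _ h3.2]
  have e4 : ∑ x ∈ Λ \ (Λ \ V), h x * sg B x = ∑ x ∈ Λ \ (Λ \ V), h x * sg B' x := by
    apply Finset.sum_congr rfl
    intro x hx
    rw [Finset.mem_sdiff, Finset.mem_sdiff] at hx
    have h1 : x ∈ V := by
      by_contra h2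
      exact hx.2 ⟨hx.1, h2⟩
    rw [hsg x h1]
  simp only [en]
  rw [e1 B, e1 B', e2 B, e2 B', e3, e4]
  ring

theorem Zm_eq (R : ℕ) (J h : Site → ℝ) (T : ℝ) (V Λ : Finset Site) (B : Set Site) :
    Zm R J h T Λ V B = Real.exp (-(en R J h Λ B - en R J h (Λ \ V) B) / T) *
      Zf R J h T (Λ \ V) B := by
  classical
  unfold Zm Zf
  rw [Finset.mul_sum]
  refine Finset.sum_congr rfl fun S hS => ?_
  rw [Finset.mem_powerset] at hS
  have h1 := Pool.Agent.H19.RFC.pf_DM R J h (Λ \ V) Λ Finset.sdiff_subset (↑S ∪ B) B (by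
    ext x
    simp only [Set.mem_sdiff, Set.mem_union, Finset.mem_coe]
    constructor
    · rintro ⟨h1 | h1, h2⟩
      · exact absurd (hS h1) h2
      · exact ⟨h1, h2⟩
    · rintro ⟨h1, h2⟩
      exact ⟨Or.inr h1, h2⟩)
  unfold wt
  rw [← Real.exp_add]
  congr 1
  rw [← h1]
  ring

/-- Energy of two configurations which are opposite on `U` and outside `W`. -/
theorem sum_en_gen (R : ℕ) (J h : Site → ℝ) {W A U : Finset Site} (hU : U ⊆ W)
    (X Y : Set Site) (ρ : Site → ℝ)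
    (h1 : ∀ y, (y ∈ U ∨ y ∉ W) → sg X y = ρ y) (h2 : ∀ y, (y ∈ U ∨ y ∉ W) → sg Y y = -ρ y)
    (h3 : ∀ y, ¬ (y ∈ U ∨ y ∉ W) → sg X y = sg A y)
    (h4 : ∀ y, ¬ (y ∈ U ∨ y ∉ W) → sg Y y = sg A y) :
    en R J h W X + en R J h W Y =
      E0 R J h W A U - ∑ e ∈ Pr R W U, J (e.1 - e.2) * ρ e.1 * ρ e.2 := by
  classical
  unfold en E0 Pr
  rw [Finset.sum_filter]
  have g1 : ∀ p ∈ prs R W,
      (J (p.1 - p.2) * sg X p.1 * sg X p.2) + (J (p.1 - p.2) * sg Y p.1 * sg Y p.2) =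
      2 * ((if (p.1 ∈ U ∨ p.1 ∉ W) ∨ (p.2 ∈ U ∨ p.2 ∉ W) then 0
        else J (p.1 - p.2) * sg A p.1 * sg A p.2) +
      (if (p.1 ∈ U ∨ p.1 ∉ W) ∧ (p.2 ∈ U ∨ p.2 ∉ W) then
        J (p.1 - p.2) * ρ p.1 * ρ p.2 else 0)) := by
    intro p _
    by_cases ha : p.1 ∈ U ∨ p.1 ∉ W
    · by_cases hb : p.2 ∈ U ∨ p.2 ∉ W
      · rw [if_pos (Or.inl ha), if_pos ⟨ha, hb⟩, h1 _ ha, h1 _ hb, h2 _ ha, h2 _ hb]
        ring
      · rw [if_pos (Or.inl ha), if_neg (fun hc => hb hc.2), h1 _ ha, h3 _ hb, h2 _ ha, h4 _ hb]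
        ring
    · by_cases hb : p.2 ∈ U ∨ p.2 ∉ W
      · rw [if_pos (Or.inr hb), if_neg (fun hc => ha hc.1), h1 _ hb, h3 _ ha, h2 _ hb, h4 _ ha]
        ring
      · rw [if_neg (by tauto), if_neg (fun hc => ha hc.1), h3 _ ha, h3 _ hb, h4 _ ha, h4 _ hb]
        ring
  have g2 : ∀ x ∈ W, h x * sg X x + h x * sg Y x = if x ∈ U then 0 else 2 * h x * sg A x := by
    intro x hx
    by_cases ha : x ∈ U
    · rw [if_pos ha, h1 _ (Or.inl ha), h2 _ (Or.inl ha)]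
      ring
    · have hn : ¬ (x ∈ U ∨ x ∉ W) := by tauto
      rw [if_neg ha, h3 _ hn, h4 _ hn]
      ring
  have g3 := Finset.sum_congr rfl g1
  have g4 := Finset.sum_congr rfl g2
  rw [Finset.sum_add_distrib, ← Finset.mul_sum, Finset.sum_add_distrib] at g3
  rw [Finset.sum_add_distrib] at g4
  linarith

theorem wprod_gen (R : ℕ) (J h : Site → ℝ) (T : ℝ) {W A U s : Finset Site} (V : Finset Site)
    (hVW : Disjoint V W) (hA : A ⊆ W) (hU : U ⊆ W) (hs : s ⊆ U) (hd : Disjoint A U) :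
    wt R J h T W (↑(W ∪ V) : Set Site)ᶜ (A ∪ s) * wt R J h T W ↑V (A ∪ (U \ s)) =
      Real.exp (-(E0 R J h W A U) / T) * ∏ e ∈ Pr R W U,
        Real.exp (J (e.1 - e.2) / T * sg (↑s ∪ (↑(W ∪ V) : Set Site)ᶜ) e.1 *
          sg (↑s ∪ (↑(W ∪ V) : Set Site)ᶜ) e.2) := by
  classical
  have hAU : ∀ y, y ∈ A → y ∉ U := fun y h1 h2 => (Finset.disjoint_left.1 hd) h1 h2
  have hAW : ∀ y, y ∈ A → y ∈ W := fun y h => hA h
  have hUW : ∀ y, y ∈ U → y ∈ W := fun y h => hU h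
  have hsU : ∀ y, y ∈ s → y ∈ U := fun y h => hs h
  have hVW' : ∀ y, y ∈ V → y ∉ W := fun y h1 h2 => (Finset.disjoint_left.1 hVW) h1 h2
  unfold wt
  rw [← Real.exp_add, ← Real.exp_sum, ← Real.exp_add]
  congr 1
  have h1 := sum_en_gen R J h (A := A) hU (↑(A ∪ s) ∪ (↑(W ∪ V) : Set Site)ᶜ)
    (↑(A ∪ (U \ s)) ∪ ↑V) (fun y => sg (↑s ∪ (↑(W ∪ V) : Set Site)ᶜ) y)
    (by
      intro y hy
      refine sg_congr ?_
      have a1 := hAU y
      have a2 := hAW y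
      simp only [Set.mem_union, Set.mem_compl_iff, Finset.mem_coe, Finset.mem_union]
      tauto)
    (by
      intro y hy
      refine sg_neg ?_
      have a1 := hAU y
      have a2 := hAW y
      have a3 := hUW y
      have a4 := hsU y
      have a5 := hVW' y
      simp only [Set.mem_union, Set.mem_compl_iff, Finset.mem_coe, Finset.mem_union,
        Finset.mem_sdiff]
      tauto)
    (by
      intro y hy
      refine sg_congr ?_
      have a4 := hsU y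
      simp only [Set.mem_union, Set.mem_compl_iff, Finset.mem_coe, Finset.mem_union]
      tauto)
    (by
      intro y hy
      refine sg_congr ?_
      have a5 := hVW' y
      simp only [Set.mem_union, Finset.mem_coe, Finset.mem_union,
        Finset.mem_sdiff]
      tauto)
  have h2 : ∑ e ∈ Pr R W U, J (e.1 - e.2) / T * sg (↑s ∪ (↑(W ∪ V) : Set Site)ᶜ) e.1 *
      sg (↑s ∪ (↑(W ∪ V) : Set Site)ᶜ) e.2 = (∑ e ∈ Pr R W U, J (e.1 - e.2) *
        sg (↑s ∪ (↑(W ∪ V) : Set Site)ᶜ) e.1 * sg (↑s ∪ (↑(W ∪ V) : Set Site)ᶜ) e.2) / T := by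
    rw [Finset.sum_div]
    exact Finset.sum_congr rfl fun e _ => by ring
  rw [h2, ← add_div, ← add_div]
  congr 1
  linarith

theorem Cn_congr {V Λ : Finset Site} {D : Set Site} {ω ω' : Finset (Site × Site)}
    (h : ∀ a ∈ D, ∀ b ∈ D, (opn ω a b ↔ opn ω' a b)) : Cn V Λ D ω ↔ Cn V Λ D ω' := by
  unfold Cn OPath
  constructor
  · rintro ⟨k, x, ⟨h1, h2⟩, h3, h4⟩
    exact ⟨k, x, ⟨h1, fun i hi => (h _ (h1 i hi.le) _ (h1 (i + 1) hi)).1 (h2 i hi)⟩, h3, h4⟩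
  · rintro ⟨k, x, ⟨h1, h2⟩, h3, h4⟩
    exact ⟨k, x, ⟨h1, fun i hi => (h _ (h1 i hi.le) _ (h1 (i + 1) hi)).2 (h2 i hi)⟩, h3, h4⟩

theorem core (hESV : D_ESV) (R : ℕ) (J h : Site → ℝ) (T : ℝ) (hT : 0 < T) (W V : Finset Site)
    (hVW : Disjoint V W) :
    Zf R J h T W (↑(W ∪ V) : Set Site)ᶜ * Zf R J h T W ↑V =
      ∑ S ∈ W.powerset, ∑ S' ∈ W.powerset, wt R J h T W (↑W : Set Site)ᶜ S *
        wt R J h T W ∅ S' * ∑ ω ∈ (prs R W).powerset, bw (prs R W) (qe J T) ω *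
          ind (¬ Cn V (W ∪ V) (Dq W S S') ω) := by
  classical
  unfold Zf
  rw [Finset.sum_mul_sum]
  refine reindex W (fun S S' => wt R J h T W (↑(W ∪ V) : Set Site)ᶜ S * wt R J h T W ↑V S')
    (fun S S' => wt R J h T W (↑W : Set Site)ᶜ S *
        wt R J h T W ∅ S' * ∑ ω ∈ (prs R W).powerset, bw (prs R W) (qe J T) ω *
          ind (¬ Cn V (W ∪ V) (Dq W S S') ω)) ?_
  intro A U hA hU hd
  have hq : qe J T = fun e : Site × Site => Real.exp (-(2 * (J (e.1 - e.2) / T))) := by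
    funext e
    unfold qe
    congr 1
    ring
  have h1 : ∀ s ∈ U.powerset, wt R J h T W (↑(W ∪ V) : Set Site)ᶜ (A ∪ s) *
      wt R J h T W ↑V (A ∪ (U \ s)) = Real.exp (-(E0 R J h W A U) / T) * ∏ e ∈ Pr R W U,
        Real.exp (J (e.1 - e.2) / T * sg (↑s ∪ (↑(W ∪ V) : Set Site)ᶜ) e.1 *
          sg (↑s ∪ (↑(W ∪ V) : Set Site)ᶜ) e.2) := by
    intro s hs
    exact wprod_gen R J h T V hVW hA hU (Finset.mem_powerset.1 hs) hd
  have h2 : ∀ s ∈ U.powerset, wt R J h T W (↑W : Set Site)ᶜ (A ∪ s) *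
        wt R J h T W ∅ (A ∪ (U \ s)) * ∑ ω ∈ (prs R W).powerset, bw (prs R W) (qe J T) ω *
          ind (¬ Cn V (W ∪ V) (Dq W (A ∪ s) (A ∪ (U \ s))) ω) =
      Real.exp (-(E0 R J h W A U) / T) * ((∑ ω ∈ (Pr R W U).powerset,
        bw (Pr R W U) (fun e => Real.exp (-(2 * (J (e.1 - e.2) / T)))) ω *
          ind (¬ Cn V (W ∪ V) (↑s ∪ (↑W)ᶜ) ω)) *
      ∏ e ∈ Pr R W U, Real.exp (J (e.1 - e.2) / T * sg (↑s ∪ (↑W : Set Site)ᶜ) e.1 *
          sg (↑s ∪ (↑W : Set Site)ᶜ) e.2)) := by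
    intro s hs
    rw [Finset.mem_powerset] at hs
    rw [wprod R J h T hT hA hU hs hd]
    have hD : Dq W (A ∪ s) (A ∪ (U \ s)) = ↑s ∪ (↑W : Set Site)ᶜ := by
      unfold Dq
      exact D_eq hA hU hs hd
    rw [hD, hq]
    rw [Pool.Agent.H7.RFT.bw_marg (prs R W) (Pr R W U) (Finset.filter_subset _ _) _
      (fun ω => ind (¬ Cn V (W ∪ V) (↑s ∪ (↑W)ᶜ) ω)) ?_]
    · ring
    · intro S hS S' hS'
      have hin : ∀ a ∈ (↑s ∪ (↑W : Set Site)ᶜ), a ∈ U ∨ a ∉ W := by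
        intro a ha
        rcases ha with ha | ha
        · exact Or.inl (hs ha)
        · exact Or.inr ha
      have hnot : ∀ a ∈ (↑s ∪ (↑W : Set Site)ᶜ), ∀ b ∈ (↑s ∪ (↑W : Set Site)ᶜ),
          (a, b) ∉ S' := by
        intro a ha b hb hab
        have h3 := Finset.mem_sdiff.1 (hS' hab)
        apply h3.2
        unfold Pr
        rw [Finset.mem_filter]
        exact ⟨h3.1, hin a ha, hin b hb⟩
      have hc : Cn V (W ∪ V) (↑s ∪ (↑W)ᶜ) (S ∪ S') ↔ Cn V (W ∪ V) (↑s ∪ (↑W)ᶜ) S := by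
        refine Cn_congr fun a ha b hb => ?_
        unfold opn
        simp only [Finset.mem_union]
        have h3 := hnot a ha b hb
        have h4 := hnot b hb a ha
        tauto
      show ind (¬ Cn V (W ∪ V) (↑s ∪ (↑W)ᶜ) (S ∪ S')) = ind (¬ Cn V (W ∪ V) (↑s ∪ (↑W)ᶜ) S)
      rw [hc]
  rw [Finset.sum_congr rfl h1, Finset.sum_congr rfl h2, ← Finset.mul_sum, ← Finset.mul_sum]
  congr 1
  exact hESV U W V (Pr R W U) (fun e => J (e.1 - e.2) / T) hU hVW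
    (fun e he => (Finset.mem_filter.1 he).2)

theorem pf_TQ (hESV : D_ESV) : D_TQ := by
  classical
  intro R J hJ h T hT V Λ hhull hV
  set W := Λ \ V with hW
  have hVW : Disjoint V W := by rw [hW]; exact Finset.disjoint_sdiff
  have hWV : W ∪ V = Λ := by rw [hW]; exact Finset.sdiff_union_of_subset hV
  have hcompl : ((↑Λ : Set Site)ᶜ ∪ ↑V) = (↑W : Set Site)ᶜ := by
    ext x
    rw [hW]
    simp only [Set.mem_union, Set.mem_compl_iff, Finset.mem_coe, Finset.mem_sdiff]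
    have : x ∈ V → x ∈ Λ := fun h => hV h
    tauto
  have hc := core hESV R J h T hT W V hVW
  rw [hWV] at hc
  rw [Zm_eq R J h T V Λ (↑Λ)ᶜ, Zm_eq R J h T V Λ ↑V, Zm_eq R J h T V Λ ((↑Λ)ᶜ ∪ ↑V),
    Zm_eq R J h T V Λ ∅, ← hW]
  have d1 : en R J h Λ (↑Λ)ᶜ - en R J h W (↑Λ)ᶜ = en R J h Λ ∅ - en R J h W ∅ := by
    rw [hW]
    exact delta_eq R J h V Λ hV hhull _ _ (fun x hx => by
      simp only [Set.mem_compl_iff, Finset.mem_coe, Set.mem_empty_iff_false, iff_false, not_not]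
      exact hV hx)
  have d2 : en R J h Λ ↑V - en R J h W ↑V =
      en R J h Λ ((↑Λ)ᶜ ∪ ↑V) - en R J h W ((↑Λ)ᶜ ∪ ↑V) := by
    rw [hW]
    exact delta_eq R J h V Λ hV hhull _ _ (fun x hx => by
      simp only [Finset.mem_coe, Set.mem_union, Set.mem_compl_iff]
      exact ⟨fun h => Or.inr h, fun _ => hx⟩)
  rw [d1, d2, hcompl]
  have hZ1 := Pool.Agent.H19.RFC.Zf_pos R J h T W (↑W : Set Site)ᶜ
  have hZ2 := Pool.Agent.H19.RFC.Zf_pos R J h T W ∅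
  have hQ : Zf R J h T W (↑W : Set Site)ᶜ * Zf R J h T W ∅ *
      QP R J h T W (fun D ω => ¬ Cn V Λ D ω) =
      Zf R J h T W (↑Λ : Set Site)ᶜ * Zf R J h T W ↑V := by
    rw [hc]
    unfold QP Qd Qe Qg
    rw [mul_div_cancel₀ _ (mul_pos hZ1 hZ2).ne']
    refine Finset.sum_congr rfl fun S _ => Finset.sum_congr rfl fun S' _ => ?_
    rw [Finset.mul_sum]
    refine Finset.sum_congr rfl fun ω _ => ?_
    ring
  calc Real.exp (-(en R J h Λ ∅ - en R J h W ∅) / T) * Zf R J h T W (↑Λ : Set Site)ᶜ *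
        (Real.exp (-(en R J h Λ (↑W : Set Site)ᶜ - en R J h W (↑W : Set Site)ᶜ) / T) *
          Zf R J h T W ↑V) =
      Real.exp (-(en R J h Λ ∅ - en R J h W ∅) / T) *
        Real.exp (-(en R J h Λ (↑W : Set Site)ᶜ - en R J h W (↑W : Set Site)ᶜ) / T) *
        (Zf R J h T W (↑Λ : Set Site)ᶜ * Zf R J h T W ↑V) := by ring
    _ = Real.exp (-(en R J h Λ ∅ - en R J h W ∅) / T) *
        Real.exp (-(en R J h Λ (↑W : Set Site)ᶜ - en R J h W (↑W : Set Site)ᶜ) / T) *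
        (Zf R J h T W (↑W : Set Site)ᶜ * Zf R J h T W ∅ *
          QP R J h T W (fun D ω => ¬ Cn V Λ D ω)) := by rw [hQ]
    _ = _ := by ring

end Pool.Agent.H67.RFT
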